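import Pool.Agent.H.MP_ccaf84_co.E

set_option autoImplicit false

namespace Pool.Agent.Results.MP_ccaf84_co.Alt

/-- `π` lies in the class of the signature `σ` (`true` is the sign +, `false` is the sign -):
positions `0, …, n-1` are cut at `0 = e 0 ≤ e 1 ≤ … ≤ e k = n`, and `π` is increasing on block `c`
(the positions `e c ≤ i < e (c+1)`) if `σ c` is +, decreasing if `σ c` is -. -/
def InClass {k n : ℕ} (σ : Fin k → Bool) (π : Equiv.Perm (Fin n)) : Prop :=
  ∃ e : Fin (k + 1) → ℕ, Monotone e ∧ e 0 = 0 ∧ e (Fin.last k) = n ∧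
    ∀ (c : Fin k) (i i' : Fin n), e c.castSucc ≤ i → i < i' → (i' : ℕ) < e c.succ →
      if σ c = true then π i < π i' else π i' < π i

theorem result (k : ℕ) (hk : Odd k) (h3 : 3 ≤ k) (n : ℕ) (hn : 1 ≤ n) :
    Nat.card {π : Equiv.Perm (Fin n) // (∀ a b, π.SameCycle a b) ∧
        InClass (fun c : Fin k => decide (c.val % 2 = 0)) π} =
      Nat.card {π : Equiv.Perm (Fin n) // (∀ a b, π.SameCycle a b) ∧
        InClass (fun c : Fin k => decide (c.val % 2 = 1)) π} := by
  classical
  obtain ⟨j, rfl⟩ := hk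
  have e : (fun c : Fin (2 * j + 1) => decide (c.val % 2 = 1)) = Pool.Agent.H.MP_ccaf84_co.sM j := by
    funext c
    simp only [Pool.Agent.H.MP_ccaf84_co.sM, Pool.Agent.H.MP_ccaf84_co.sg]
    rcases Nat.mod_two_eq_zero_or_one c.val with h | h <;> simp [h]
  rw [e]
  simp only [InClass, Pool.Agent.H.MP_ccaf84_co.seg_iff]
  rw [Nat.card_eq_fintype_card, Nat.card_eq_fintype_card, Fintype.card_subtype,
    Fintype.card_subtype]
  convert Pool.Agent.H.MP_ccaf84_co.main j (by omega) n hn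
  rfl

end Pool.Agent.Results.MP_ccaf84_co.Alt
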